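import Mathlib
import Pool.Agent.R913.Adj.Core
import Pool.Agent.Y114.RM.Defs

/-!
# Alternating forms on products and tensors
-/

set_option autoImplicit false
set_option linter.unusedSectionVars false

namespace Pool.Agent.U980.AD

open Module Pool.Agent.Y114.RM Pool.Agent.Y114.TF Pool.Agent.R913.Adj

section gen

variable {k : Type} [Field k]

theorem multi_zero {N q : ℕ} {E : Fin q → Type} [∀ a, AddCommGroup (E a)] [∀ a, Module k (E a)]
    (F : MultilinearMap k (fun _ : Fin N => ∀ a, E a) k)
    (h : ∀ (r : Fin N → Fin q) (y : ∀ l, E (r l)), F (fun l => Pi.single (r l) (y l)) = 0)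
    (v : Fin N → ∀ a, E a) : F v = 0 := by
  have hv : v = fun l => ∑ b, (Pi.single b (v l b) : ∀ a, E a) := by
    funext l
    exact (Finset.univ_sum_single (v l)).symm
  rw [hv, MultilinearMap.map_sum]
  refine Finset.sum_eq_zero fun r _ => ?_
  exact h r fun l => v l (r l)

variable {ι : Type} {V : ι → Type} [∀ i, AddCommGroup (V i)] [∀ i, Module k (V i)]

/-- The family of operators `A` acts on all the factors. -/
def act {q : ℕ} (s : Fin q → ι) (A : ∀ i, End k (V i)) : End k (∀ a, V (s a)) :=
  LinearMap.pi fun a => A (s a) ∘ₗ LinearMap.proj a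

theorem act_apply {q : ℕ} (s : Fin q → ι) (A : ∀ i, End k (V i)) (v : ∀ a, V (s a)) (a : Fin q) :
    act s A v a = A (s a) (v a) := rfl

theorem act_single {q : ℕ} (s : Fin q → ι) (A : ∀ i, End k (V i)) (b : Fin q) (y : V (s b)) :
    act s A (Pi.single b y) = Pi.single b (A (s b) y) := by
  funext a
  rw [act_apply]
  by_cases h : a = b
  · subst h
    rw [Pi.single_eq_same, Pi.single_eq_same]
  · rw [Pi.single_eq_of_ne h, Pi.single_eq_of_ne h, map_zero]

variable {q m : ℕ} {s : Fin q → ι} (f : (∀ a, V (s a)) [⋀^Fin (2 * m)]→ₗ[k] k)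

/-- The derivation of a form. -/
def der (A : ∀ i, End k (V i)) : MultilinearMap k (fun _ : Fin (2 * m) => ∀ a, V (s a)) k :=
  ∑ l, f.toMultilinearMap.compLinearMap (fun l' => if l' = l then act s A else LinearMap.id)

theorem der_apply (A : ∀ i, End k (V i)) (v : Fin (2 * m) → ∀ a, V (s a)) :
    der f A v = ∑ l, f (Function.update v l (act s A (v l))) := by
  unfold der
  rw [sum_apply]
  refine Finset.sum_congr rfl fun l _ => ?_
  rw [MultilinearMap.compLinearMap_apply]
  change f _ = f _
  congr 1
  funext l'
  by_cases h : l' = l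
  · subst h
    rw [if_pos rfl, Function.update_self]
  · rw [if_neg h, Function.update_of_ne h]
    rfl

end gen

section conv

variable {k : Type} [Field k] {ι : Type} [DecidableEq ι] {V : ι → Type}
  [∀ i, AddCommGroup (V i)] [∀ i, Module k (V i)]
  (sh : ∀ i, Dual k (V i) →ₗ[k] V i)

/-- The map to the `i`-th summand, on vectors or on dual vectors. -/
noncomputable def gm (b : Bool) (i : ι) : ((∀ i, V i) × Dual k (∀ i, V i)) →ₗ[k] V i :=
  if b then LinearMap.proj i ∘ₗ LinearMap.fst k _ _
  else sh i ∘ₗ (LinearMap.single k V i).dualMap ∘ₗ LinearMap.snd k _ _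

/-- The tensor given by a form and a choice of the factors. -/
noncomputable def toTensor {q m : ℕ} {s : Fin q → ι} (f : (∀ a, V (s a)) [⋀^Fin (2 * m)]→ₗ[k] k)
    (r : Fin (2 * m) → Fin q) : Tensor k (∀ i, V i) (2 * m) :=
  f.toMultilinearMap.compLinearMap fun l =>
    (LinearMap.single k (fun a => V (s a)) (r l)) ∘ₗ gm sh (decide (l.val < m)) (s (r l))

theorem toTensor_apply {q m : ℕ} {s : Fin q → ι} (f : (∀ a, V (s a)) [⋀^Fin (2 * m)]→ₗ[k] k)
    (r : Fin (2 * m) → Fin q) (u : Fin (2 * m) → (∀ i, V i) × Dual k (∀ i, V i)) :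
    toTensor sh f r u =
      f (fun l => Pi.single (r l) (gm sh (decide (l.val < m)) (s (r l)) (u l))) := rfl

variable {sh} {ω : ∀ i, V i →ₗ[k] V i →ₗ[k] k} (hsh : ∀ i ξ y, ω i (sh i ξ) y = ξ y)
  (hω : ∀ i x, (∀ y, ω i x y = 0) → x = 0)

include hsh hω

theorem sh_eq {i : ι} {ξ : Dual k (V i)} {x : V i} (h : ∀ y, ω i x y = ξ y) : sh i ξ = x := by
  have h1 : sh i ξ - x = 0 := hω i _ fun y => by
    rw [map_sub, LinearMap.sub_apply, hsh, h, sub_self]
  exact sub_eq_zero.1 h1

theorem gm_surj (b : Bool) (i : ι) (y : V i) : ∃ u, gm sh b i u = y := by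
  cases b with
  | true =>
    refine ⟨(Pi.single i y, 0), ?_⟩
    change (Pi.single i y : ∀ i, V i) i = y
    rw [Pi.single_eq_same]
  | false =>
    refine ⟨(0, (ω i y) ∘ₗ LinearMap.proj i), ?_⟩
    change sh i ((LinearMap.single k V i).dualMap ((ω i y) ∘ₗ LinearMap.proj i)) = y
    refine sh_eq hsh hω fun z => ?_
    change ω i y z = ω i y ((Pi.single i z : ∀ i, V i) i)
    rw [Pi.single_eq_same]

theorem gm_lie {X : End k (∀ i, V i)} (hX : Diag X) {ν : k}
    (hν : ∀ i x y, ω i (bl i X x) y + ω i x (bl i X y) = ν * ω i x y) (b : Bool) (i : ι)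
    (u : (∀ i, V i) × Dual k (∀ i, V i)) :
    gm sh b i (lie X u) = bl i X (gm sh b i u) - (if b then 0 else ν) • gm sh b i u := by
  cases b with
  | true =>
    rw [if_pos rfl, zero_smul, sub_zero]
    exact hX u.1 i
  | false =>
    rw [if_neg (by decide)]
    change sh i ((LinearMap.single k V i).dualMap ((-X.dualMap) u.2)) =
      bl i X (sh i ((LinearMap.single k V i).dualMap u.2)) -
        ν • sh i ((LinearMap.single k V i).dualMap u.2)
    refine sh_eq hsh hω fun y => ?_
    set ξ := (LinearMap.single k V i).dualMap u.2 with hξ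
    have h1 := hν i (sh i ξ) y
    have h2 : (LinearMap.single k V i).dualMap ((-X.dualMap) u.2) y = -ξ (bl i X y) := by
      change -(u.2 (X (Pi.single i y))) = -(u.2 (Pi.single i (bl i X y)))
      congr 2
      funext j
      rw [hX (Pi.single i y) j]
      by_cases h : j = i
      · subst h
        rw [Pi.single_eq_same, Pi.single_eq_same]
        rfl
      · rw [Pi.single_eq_of_ne h, Pi.single_eq_of_ne h, Pi.single_zero, map_zero]
        rfl
    have h4 := hsh i ξ (bl i X y)
    rw [h2, map_sub, map_smul, LinearMap.sub_apply, LinearMap.smul_apply, smul_eq_mul]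
    linear_combination h1 - h4

theorem card_half (m : ℕ) : (Finset.univ.filter fun l : Fin (2 * m) => ¬ (l.val < m)).card = m := by
  have h1 := Finset.card_filter_add_card_filter_not (s := (Finset.univ : Finset (Fin (2 * m))))
    (fun l : Fin (2 * m) => l.val < m)
  have h2 : (Finset.univ.filter fun l : Fin (2 * m) => l.val < m).card = m := by
    have h3 : (Finset.univ.filter fun l : Fin (2 * m) => l.val < m) =
        Finset.univ.map ⟨fun j : Fin m => (⟨j.val, by omega⟩ : Fin (2 * m)), fun a b h => by
          simpa [Fin.ext_iff] using h⟩ := by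
      ext l
      simp only [Finset.mem_filter, Finset.mem_univ, true_and, Finset.mem_map]
      constructor
      · intro h
        exact ⟨⟨l.val, h⟩, rfl⟩
      · rintro ⟨j, rfl⟩
        exact j.isLt
    rw [h3, Finset.card_map, Finset.card_univ, Fintype.card_fin]
  rw [h2, Finset.card_univ, Fintype.card_fin] at h1
  omega

theorem kills_toTensor {q m : ℕ} {s : Fin q → ι} (f : (∀ a, V (s a)) [⋀^Fin (2 * m)]→ₗ[k] k)
    {X : End k (∀ i, V i)} (hX : Diag X) {ν : k}
    (hν : ∀ i x y, ω i (bl i X x) y + ω i x (bl i X y) = ν * ω i x y) :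
    (∀ r, KillsTensor X (toTensor sh f r)) ↔ ∀ v, der f (fun i => bl i X) v = m * ν * f v := by
  have key : ∀ (r : Fin (2 * m) → Fin q) (u : Fin (2 * m) → (∀ i, V i) × Dual k (∀ i, V i)),
      ∑ l, toTensor sh f r (Function.update u l (lie X (u l))) =
        der f (fun i => bl i X)
          (fun l => Pi.single (r l) (gm sh (decide (l.val < m)) (s (r l)) (u l))) -
        m * ν * f (fun l => Pi.single (r l) (gm sh (decide (l.val < m)) (s (r l)) (u l))) := by
    intro r u
    obtain ⟨w, hw⟩ : ∃ w : Fin (2 * m) → ∀ a, V (s a), w = fun l =>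
      Pi.single (r l) (gm sh (decide (l.val < m)) (s (r l)) (u l)) := ⟨_, rfl⟩
    rw [← hw, der_apply]
    have h1 : ∀ l, toTensor sh f r (Function.update u l (lie X (u l))) =
        f (Function.update w l (act s (fun i => bl i X) (w l))) -
          (if l.val < m then 0 else ν) * f w := by
      intro l
      rw [toTensor_apply]
      have h2 : (fun l' => (Pi.single (r l') (gm sh (decide (l'.val < m)) (s (r l'))
          (Function.update u l (lie X (u l)) l')) : ∀ a, V (s a))) =
          Function.update w l (act s (fun i => bl i X) (w l) -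
            (if l.val < m then (0 : k) else ν) • w l) := by
        funext l'
        by_cases h : l' = l
        · subst h
          rw [Function.update_self, Function.update_self, gm_lie hsh hω hX hν, hw]
          simp only [decide_eq_true_eq]
          rw [Pi.single_sub, Pi.single_smul, act_single]
        · rw [Function.update_of_ne h, Function.update_of_ne h, hw]
      rw [h2, AlternatingMap.map_update_sub, AlternatingMap.map_update_smul, Function.update_eq_self,
        smul_eq_mul]
    rw [Finset.sum_congr rfl fun l _ => h1 l, Finset.sum_sub_distrib, ← Finset.sum_mul]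
    congr 2
    have h3 : ∑ l : Fin (2 * m), (if l.val < m then (0 : k) else ν) =
        ∑ l ∈ Finset.univ.filter (fun l : Fin (2 * m) => ¬ (l.val < m)), ν := by
      rw [Finset.sum_filter]
      refine Finset.sum_congr rfl fun l _ => ?_
      by_cases h : l.val < m
      · rw [if_pos h, if_neg (not_not.2 h)]
      · rw [if_neg h, if_pos h]
    rw [h3, Finset.sum_const, card_half hsh hω m, nsmul_eq_mul]
  constructor
  · intro h v
    let F : MultilinearMap k (fun _ : Fin (2 * m) => ∀ a, V (s a)) k :=
      der f (fun i => bl i X) - (m * ν) • f.toMultilinearMap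
    have h1 : F v = 0 := by
      refine multi_zero F (fun r y => ?_) v
      choose u hu using fun l => gm_surj hsh hω (decide (l.val < m)) (s (r l)) (y l)
      have h2 := key r u
      rw [h r u] at h2
      simp only [hu] at h2
      exact h2.symm
    exact sub_eq_zero.1 h1
  · intro h r u
    rw [key r u, h, sub_self]

end conv

end Pool.Agent.U980.AD
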