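import Mathlib
import Pool.Agent.U980.AD.Forms
import Pool.Agent.R913.Adj.Main

/-!
# Tate classes on products and Tate tensors
-/

set_option autoImplicit false
set_option linter.unusedSectionVars false

namespace Pool.Agent.U980.AD

open Module Pool.Agent.Y114.RM Pool.Agent.Y114.TF Pool.Agent.R913.Adj

section conv

variable {k : Type} [Field k] {ι : Type} [DecidableEq ι] {V : ι → Type}
  [∀ i, AddCommGroup (V i)] [∀ i, Module k (V i)]
  {sh : ∀ i, Dual k (V i) →ₗ[k] V i}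
  {ω : ∀ i, V i →ₗ[k] V i →ₗ[k] k} (hsh : ∀ i ξ y, ω i (sh i ξ) y = ξ y)
  (hω : ∀ i x, (∀ y, ω i x y = 0) → x = 0)
  {Γ : Type} [Group Γ] (ρ : ∀ i, Representation k Γ (V i)) (χ : Γ →* k)
  (hχ : ∀ i g x y, ω i (ρ i g x) (ρ i g y) = χ g * ω i x y)

include hsh hω hχ

theorem chi_ne (g : Γ) : χ g ≠ 0 := by
  have h : χ g * χ g⁻¹ = 1 := by rw [← map_mul, mul_inv_cancel, map_one]
  exact left_ne_zero_of_mul_eq_one h

theorem gm_grp (g : Γ) (b : Bool) (i : ι) (u : (∀ i, V i) × Dual k (∀ i, V i)) :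
    gm sh b i (grp (sumRep ρ g) (sumRep ρ g⁻¹) u) =
      (if b then 1 else (χ g)⁻¹) • ρ i g (gm sh b i u) := by
  cases b with
  | true =>
    rw [if_pos rfl, one_smul]
    rfl
  | false =>
    rw [if_neg (by decide)]
    change sh i ((LinearMap.single k V i).dualMap ((sumRep ρ g⁻¹).dualMap u.2)) =
      (χ g)⁻¹ • ρ i g (sh i ((LinearMap.single k V i).dualMap u.2))
    refine sh_eq hsh hω fun y => ?_
    set ξ := (LinearMap.single k V i).dualMap u.2 with hξ
    have h2 : (LinearMap.single k V i).dualMap ((sumRep ρ g⁻¹).dualMap u.2) y =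
        ξ (ρ i g⁻¹ y) := by
      change u.2 (sumRep ρ g⁻¹ (Pi.single i y)) = u.2 (Pi.single i (ρ i g⁻¹ y))
      congr 1
      funext j
      change ρ j g⁻¹ ((Pi.single i y : ∀ i, V i) j) = _
      by_cases h : j = i
      · subst h
        rw [Pi.single_eq_same, Pi.single_eq_same]
      · rw [Pi.single_eq_of_ne h, Pi.single_eq_of_ne h, map_zero]
    have h3 : ρ i g (ρ i g⁻¹ y) = y := by
      rw [← Module.End.mul_apply, ← map_mul, mul_inv_cancel, map_one, Module.End.one_apply]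
    rw [h2, map_smul, LinearMap.smul_apply, smul_eq_mul]
    conv_lhs => rw [← h3, hχ, hsh]
    rw [← mul_assoc, inv_mul_cancel₀ (chi_ne hsh hω ρ χ hχ g), one_mul]

/-- The form is fixed by `g`, up to the factor `χ ^ m`. -/
def FixedBy {q m : ℕ} {s : Fin q → ι} (f : (∀ a, V (s a)) [⋀^Fin (2 * m)]→ₗ[k] k) (g : Γ) : Prop :=
  ∀ v, f (fun l => act s (fun i => ρ i g) (v l)) = χ g ^ m * f v

theorem toTensor_grp {q m : ℕ} {s : Fin q → ι} (f : (∀ a, V (s a)) [⋀^Fin (2 * m)]→ₗ[k] k) (g : Γ)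
    (r : Fin (2 * m) → Fin q) (u : Fin (2 * m) → (∀ i, V i) × Dual k (∀ i, V i)) :
    toTensor sh f r (fun l => grp (sumRep ρ g) (sumRep ρ g⁻¹) (u l)) =
      (χ g ^ m)⁻¹ * f (fun l => act s (fun i => ρ i g)
        (Pi.single (r l) (gm sh (decide (l.val < m)) (s (r l)) (u l)))) := by
  rw [toTensor_apply]
  have h1 : (fun l => (Pi.single (r l) (gm sh (decide (l.val < m)) (s (r l))
      (grp (sumRep ρ g) (sumRep ρ g⁻¹) (u l))) : ∀ a, V (s a))) =
      fun l => (if l.val < m then (1 : k) else (χ g)⁻¹) • act s (fun i => ρ i g)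
        (Pi.single (r l) (gm sh (decide (l.val < m)) (s (r l)) (u l))) := by
    funext l
    rw [gm_grp hsh hω ρ χ hχ, act_single]
    simp only [decide_eq_true_eq]
    rw [Pi.single_smul]
  rw [h1, f.map_smul_univ, smul_eq_mul]
  congr 1
  have h3 : ∏ l : Fin (2 * m), (if l.val < m then (1 : k) else (χ g)⁻¹) =
      ∏ l ∈ Finset.univ.filter (fun l : Fin (2 * m) => ¬ (l.val < m)), (χ g)⁻¹ := by
    rw [Finset.prod_filter]
    refine Finset.prod_congr rfl fun l _ => ?_
    by_cases h : l.val < m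
    · rw [if_pos h, if_neg (not_not.2 h)]
    · rw [if_neg h, if_pos h]
  rw [h3, Finset.prod_const, card_half hsh hω m, inv_pow]

theorem tate_toTensor {q m : ℕ} {s : Fin q → ι} (f : (∀ a, V (s a)) [⋀^Fin (2 * m)]→ₗ[k] k) :
    (∀ r, TateTensor (sumRep ρ) (toTensor sh f r)) ↔
      ∃ Δ : Subgroup Γ, Δ.FiniteIndex ∧ ∀ g ∈ Δ, FixedBy ρ χ f g := by
  constructor
  · intro h
    choose Δ hΔ hf using h
    refine ⟨⨅ r, Δ r, Subgroup.finiteIndex_iInf fun r => hΔ r, fun g hg v => ?_⟩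
    let F : MultilinearMap k (fun _ : Fin (2 * m) => ∀ a, V (s a)) k :=
      f.toMultilinearMap.compLinearMap (fun _ => act s (fun i => ρ i g)) -
        (χ g ^ m) • f.toMultilinearMap
    have h1 : F v = 0 := by
      refine multi_zero F (fun r y => ?_) v
      choose u hu using fun l => gm_surj hsh hω (decide (l.val < m)) (s (r l)) (y l)
      have h2 := hf r g (Subgroup.mem_iInf.1 hg r) u
      rw [toTensor_grp hsh hω ρ χ hχ, toTensor_apply] at h2
      simp only [hu] at h2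
      change f (fun l => act s (fun i => ρ i g) (Pi.single (r l) (y l))) -
        χ g ^ m * f (fun l => Pi.single (r l) (y l)) = 0
      rw [← h2, mul_inv_cancel_left₀ (pow_ne_zero m (chi_ne hsh hω ρ χ hχ g)), sub_self]
    exact sub_eq_zero.1 h1
  · rintro ⟨Δ, hΔ, hf⟩ r
    refine ⟨Δ, hΔ, fun g hg u => ?_⟩
    rw [toTensor_grp hsh hω ρ χ hχ, hf g hg, toTensor_apply,
      inv_mul_cancel_left₀ (pow_ne_zero m (chi_ne hsh hω ρ χ hχ g))]

end conv

end Pool.Agent.U980.AD
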