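import Mathlib
import Pool.Agent.U980.AD.Tate

/-!
# From classes in codimension two to maps between the endomorphism algebras
-/

set_option autoImplicit false
set_option linter.unusedSectionVars false

namespace Pool.Agent.U980.AD

open Module Pool.Agent.Y114.RM Pool.Agent.Y114.TF Pool.Agent.R913.Adj

section alt

variable {k : Type} [Field k] {κ : Type} [Fintype κ] [DecidableEq κ] {E : κ → Type}
  [∀ a, AddCommGroup (E a)] [∀ a, Module k (E a)] (φ : MultilinearMap k E k)

/-- The class of the product variety given by a multilinear form on the factors. -/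
noncomputable def altOf : (∀ a, E a) [⋀^κ]→ₗ[k] k :=
  MultilinearMap.alternatization (φ.compLinearMap fun a => LinearMap.proj a)

theorem altOf_apply (v : κ → ∀ a, E a) :
    altOf φ v = ∑ σ : Equiv.Perm κ, Equiv.Perm.sign σ • φ (fun a => v (σ a) a) := by
  unfold altOf
  rw [MultilinearMap.alternatization_apply]
  rfl

theorem altOf_single (x : ∀ a, E a) : altOf φ (fun l => Pi.single l (x l)) = φ x := by
  rw [altOf_apply, Finset.sum_eq_single 1]
  · rw [Equiv.Perm.sign_one, one_smul]
    congr 1
    funext a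
    rw [Equiv.Perm.one_apply, Pi.single_eq_same]
  · intro σ _ hσ
    obtain ⟨a, ha⟩ : ∃ a, σ a ≠ a := by
      by_contra h
      push Not at h
      exact hσ (Equiv.Perm.ext h)
    rw [φ.map_coord_zero a, smul_zero]
    exact Pi.single_eq_of_ne ha.symm _
  · intro h
    exact absurd (Finset.mem_univ _) h

end alt

section mk

variable {k : Type} [Field k] {E : Fin 4 → Type} [∀ a, AddCommGroup (E a)] [∀ a, Module k (E a)]

theorem h01 : (0 : Fin 4) ≠ 1 := by decide

theorem h02 : (0 : Fin 4) ≠ 2 := by decide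

theorem h03 : (0 : Fin 4) ≠ 3 := by decide

theorem h12 : (1 : Fin 4) ≠ 2 := by decide

theorem h13 : (1 : Fin 4) ≠ 3 := by decide

theorem h23 : (2 : Fin 4) ≠ 3 := by decide

/-- A multilinear form in four variables. -/
def mk4 (g : E 0 → E 1 → E 2 → E 3 → k)
    (a0 : ∀ x x' y z w, g (x + x') y z w = g x y z w + g x' y z w)
    (s0 : ∀ (c : k) x y z w, g (c • x) y z w = c • g x y z w)
    (a1 : ∀ x y y' z w, g x (y + y') z w = g x y z w + g x y' z w)
    (s1 : ∀ (c : k) x y z w, g x (c • y) z w = c • g x y z w)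
    (a2 : ∀ x y z z' w, g x y (z + z') w = g x y z w + g x y z' w)
    (s2 : ∀ (c : k) x y z w, g x y (c • z) w = c • g x y z w)
    (a3 : ∀ x y z w w', g x y z (w + w') = g x y z w + g x y z w')
    (s3 : ∀ (c : k) x y z w, g x y z (c • w) = c • g x y z w) : MultilinearMap k E k where
  toFun x := g (x 0) (x 1) (x 2) (x 3)
  map_update_add' := by
    intro _ x i y y'
    match i, y, y' with
    | 0, y, y' =>
      simp only [Function.update_self, Function.update_of_ne h01.symm, Function.update_of_ne h02.symm,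
        Function.update_of_ne h03.symm, a0]
    | 1, y, y' =>
      simp only [Function.update_self, Function.update_of_ne h01, Function.update_of_ne h12.symm,
        Function.update_of_ne h13.symm, a1]
    | 2, y, y' =>
      simp only [Function.update_self, Function.update_of_ne h02, Function.update_of_ne h12,
        Function.update_of_ne h23.symm, a2]
    | 3, y, y' =>
      simp only [Function.update_self, Function.update_of_ne h03, Function.update_of_ne h13,
        Function.update_of_ne h23, a3]
  map_update_smul' := by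
    intro _ x i c y
    match i, y with
    | 0, y =>
      simp only [Function.update_self, Function.update_of_ne h01.symm, Function.update_of_ne h02.symm,
        Function.update_of_ne h03.symm, s0]
    | 1, y =>
      simp only [Function.update_self, Function.update_of_ne h01, Function.update_of_ne h12.symm,
        Function.update_of_ne h13.symm, s1]
    | 2, y =>
      simp only [Function.update_self, Function.update_of_ne h02, Function.update_of_ne h12,
        Function.update_of_ne h23.symm, s2]
    | 3, y =>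
      simp only [Function.update_self, Function.update_of_ne h03, Function.update_of_ne h13,
        Function.update_of_ne h23, s3]

end mk

section rank

variable {k : Type} [Field k] {W : Type} [AddCommGroup W] [Module k W]

/-- The operator `v ↦ ω(y, v) x`. -/
def rk (ω : W →ₗ[k] W →ₗ[k] k) (x y : W) : End k W := (ω y).smulRight x

theorem rk_apply (ω : W →ₗ[k] W →ₗ[k] k) (x y v : W) : rk ω x y v = ω y v • x := rfl

/-- Linear maps are determined by the operators of rank one. -/
theorem rk_ext [FiniteDimensional k W] {ω : W →ₗ[k] W →ₗ[k] k} {sh : Dual k W →ₗ[k] W}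
    (hsh : ∀ ξ y, ω (sh ξ) y = ξ y) {M : Type} [AddCommGroup M] [Module k M]
    {S T : End k W →ₗ[k] M} (h : ∀ x y, S (rk ω x y) = T (rk ω x y)) (A : End k W) :
    S A = T A := by
  have hA : A = ∑ c, rk ω (A (finBasis k W c)) (sh ((finBasis k W).coord c)) := by
    refine LinearMap.ext fun v => ?_
    rw [LinearMap.sum_apply]
    conv_lhs => rw [← (finBasis k W).sum_repr v, map_sum]
    refine Finset.sum_congr rfl fun c _ => ?_
    rw [rk_apply, hsh, map_smul, Basis.coord_apply]
  rw [hA, map_sum, map_sum]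
  exact Finset.sum_congr rfl fun c _ => h _ _

end rank

section adj

variable {k : Type} [Field k] {ι : Type} [DecidableEq ι] {V : ι → Type}
  [∀ i, AddCommGroup (V i)] [∀ i, Module k (V i)]

theorem altOf_act {q : ℕ} {s : Fin q → ι} (φ : MultilinearMap k (fun a => V (s a)) k)
    (A : ∀ i, End k (V i)) (c : k) (h : ∀ x : ∀ a, V (s a), φ (fun a => A (s a) (x a)) = c * φ x)
    (v : Fin q → ∀ a, V (s a)) : altOf φ (fun l => act s A (v l)) = c * altOf φ v := by
  rw [altOf_apply, altOf_apply, Finset.mul_sum]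
  refine Finset.sum_congr rfl fun σ _ => ?_
  rw [mul_smul_comm]
  congr 1
  exact h _

/-- The value of the four-linear form of a linear map between the endomorphism algebras. -/
def gT (ω : ∀ i, V i →ₗ[k] V i →ₗ[k] k) (i j : ι) (T : End k (V i) →ₗ[k] End k (V j))
    (x y : V i) (z w : V j) : k := ω j (T (rk (ω i) x y) z) w

section gT

variable (ω : ∀ i, V i →ₗ[k] V i →ₗ[k] k) (i j : ι) (T : End k (V i) →ₗ[k] End k (V j))

theorem gT_a0 (x x' y : V i) (z w : V j) :
    gT ω i j T (x + x') y z w = gT ω i j T x y z w + gT ω i j T x' y z w := by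
  have h : rk (ω i) (x + x') y = rk (ω i) x y + rk (ω i) x' y := by
    refine LinearMap.ext fun v => ?_
    rw [LinearMap.add_apply, rk_apply, rk_apply, rk_apply, smul_add]
  unfold gT
  rw [h, map_add, LinearMap.add_apply, map_add, LinearMap.add_apply]

theorem gT_s0 (c : k) (x y : V i) (z w : V j) :
    gT ω i j T (c • x) y z w = c • gT ω i j T x y z w := by
  have h : rk (ω i) (c • x) y = c • rk (ω i) x y := by
    refine LinearMap.ext fun v => ?_
    rw [LinearMap.smul_apply, rk_apply, rk_apply, smul_comm]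
  unfold gT
  rw [h, map_smul, LinearMap.smul_apply, map_smul, LinearMap.smul_apply]

theorem gT_a1 (x y y' : V i) (z w : V j) :
    gT ω i j T x (y + y') z w = gT ω i j T x y z w + gT ω i j T x y' z w := by
  have h : rk (ω i) x (y + y') = rk (ω i) x y + rk (ω i) x y' := by
    refine LinearMap.ext fun v => ?_
    rw [LinearMap.add_apply, rk_apply, rk_apply, rk_apply, map_add, LinearMap.add_apply, add_smul]
  unfold gT
  rw [h, map_add, LinearMap.add_apply, map_add, LinearMap.add_apply]

theorem gT_s1 (c : k) (x y : V i) (z w : V j) :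
    gT ω i j T x (c • y) z w = c • gT ω i j T x y z w := by
  have h : rk (ω i) x (c • y) = c • rk (ω i) x y := by
    refine LinearMap.ext fun v => ?_
    rw [LinearMap.smul_apply, rk_apply, rk_apply, map_smul, LinearMap.smul_apply, smul_eq_mul,
      mul_smul]
  unfold gT
  rw [h, map_smul, LinearMap.smul_apply, map_smul, LinearMap.smul_apply]

theorem gT_a2 (x y : V i) (z z' w : V j) :
    gT ω i j T x y (z + z') w = gT ω i j T x y z w + gT ω i j T x y z' w := by
  unfold gT
  rw [map_add, map_add, LinearMap.add_apply]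

theorem gT_s2 (c : k) (x y : V i) (z w : V j) :
    gT ω i j T x y (c • z) w = c • gT ω i j T x y z w := by
  unfold gT
  rw [map_smul, map_smul, LinearMap.smul_apply]

theorem gT_a3 (x y : V i) (z w w' : V j) :
    gT ω i j T x y z (w + w') = gT ω i j T x y z w + gT ω i j T x y z w' := by
  unfold gT
  rw [map_add]

theorem gT_s3 (c : k) (x y : V i) (z w : V j) :
    gT ω i j T x y z (c • w) = c • gT ω i j T x y z w := by
  unfold gT
  rw [map_smul]

/-- The four-linear form of a linear map between the endomorphism algebras. -/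
def formT : MultilinearMap k (fun a : Fin 4 => V ((![i, i, j, j] : Fin 4 → ι) a)) k :=
  mk4 (E := fun a : Fin 4 => V ((![i, i, j, j] : Fin 4 → ι) a))
    (fun x y z w => gT ω i j T x y z w)
    (fun x x' y z w => gT_a0 ω i j T x x' y z w)
    (fun c x y z w => gT_s0 ω i j T c x y z w)
    (fun x y y' z w => gT_a1 ω i j T x y y' z w)
    (fun c x y z w => gT_s1 ω i j T c x y z w)
    (fun x y z z' w => gT_a2 ω i j T x y z z' w)
    (fun c x y z w => gT_s2 ω i j T c x y z w)
    (fun x y z w w' => gT_a3 ω i j T x y z w w')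
    (fun c x y z w => gT_s3 ω i j T c x y z w)

end gT

theorem formT_apply (ω : ∀ i, V i →ₗ[k] V i →ₗ[k] k) (i j : ι)
    (T : End k (V i) →ₗ[k] End k (V j)) (x : ∀ a : Fin 4, V ((![i, i, j, j] : Fin 4 → ι) a)) :
    formT ω i j T x = gT ω i j T (x 0) (x 1) (x 2) (x 3) := rfl

variable {sh : ∀ i, Dual k (V i) →ₗ[k] V i}
  {ω : ∀ i, V i →ₗ[k] V i →ₗ[k] k} (hsh : ∀ i ξ y, ω i (sh i ξ) y = ξ y)
  (hω : ∀ i x, (∀ y, ω i x y = 0) → x = 0)

theorem sum_altOf_single {q : ℕ} {s : Fin q → ι} (φ : MultilinearMap k (fun a => V (s a)) k)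
    (A : ∀ i, End k (V i)) (x : ∀ a, V (s a)) :
    ∑ l, altOf φ (Function.update (fun l => (Pi.single l (x l) : ∀ a, V (s a))) l
      (act s A (Pi.single l (x l)))) = ∑ l, φ (Function.update x l (A (s l) (x l))) := by
  refine Finset.sum_congr rfl fun l _ => ?_
  rw [← altOf_single φ, act_single]
  congr 1
  funext l'
  by_cases h : l' = l
  · subst h
    rw [Function.update_self, Function.update_self]
  · rw [Function.update_of_ne h, Function.update_of_ne h]

theorem sum_formT (ω : ∀ i, V i →ₗ[k] V i →ₗ[k] k) (i j : ι)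
    (T : End k (V i) →ₗ[k] End k (V j)) (A : ∀ i, End k (V i)) (x y : V i) (z w : V j)
    (u : ∀ a : Fin 4, V ((![i, i, j, j] : Fin 4 → ι) a)) (h0 : u 0 = x) (h1 : u 1 = y)
    (h2 : u 2 = z) (h3 : u 3 = w) :
    ∑ l, formT ω i j T (Function.update u l (A ((![i, i, j, j] : Fin 4 → ι) l) (u l))) =
      gT ω i j T (A i x) y z w + gT ω i j T x (A i y) z w + gT ω i j T x y (A j z) w +
        gT ω i j T x y z (A j w) := by
  subst h0 h1 h2 h3
  rw [Fin.sum_univ_four]
  simp only [formT_apply, Function.update_self, Function.update_of_ne h01,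
    Function.update_of_ne h02, Function.update_of_ne h03, Function.update_of_ne h12,
    Function.update_of_ne h13, Function.update_of_ne h23, Function.update_of_ne h01.symm,
    Function.update_of_ne h02.symm, Function.update_of_ne h03.symm, Function.update_of_ne h12.symm,
    Function.update_of_ne h13.symm, Function.update_of_ne h23.symm]
  rfl

/-- Existence of a family of vectors with given components. -/
theorem exists_four (i j : ι) (x y : V i) (z w : V j) :
    ∃ u : ∀ a : Fin 4, V ((![i, i, j, j] : Fin 4 → ι) a), u 0 = x ∧ u 1 = y ∧ u 2 = z ∧ u 3 = w :=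
  ⟨fun a => match a with
    | 0 => x
    | 1 => y
    | 2 => z
    | 3 => w, rfl, rfl, rfl, rfl⟩

theorem gT_grp {Γ : Type} [Group Γ] {ρ : ∀ i, Representation k Γ (V i)} {χ : Γ →* k}
    (hχ : ∀ i g x y, ω i (ρ i g x) (ρ i g y) = χ g * ω i x y) {i j : ι}
    {T : End k (V i) →ₗ[k] End k (V j)} {g : Γ}
    (hT : Commutes T (AdE (ρ i g) (ρ i g⁻¹)) (AdE (ρ j g) (ρ j g⁻¹))) (x y : V i) (z w : V j) :
    gT ω i j T (ρ i g x) (ρ i g y) (ρ j g z) (ρ j g w) = χ g ^ 2 * gT ω i j T x y z w := by
  have h1 : rk (ω i) (ρ i g x) (ρ i g y) = χ g • AdE (ρ i g) (ρ i g⁻¹) (rk (ω i) x y) := by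
    refine LinearMap.ext fun v => ?_
    have h2 : v = ρ i g (ρ i g⁻¹ v) := by
      rw [← Module.End.mul_apply, ← map_mul, mul_inv_cancel, map_one, Module.End.one_apply]
    rw [rk_apply, LinearMap.smul_apply, AdE_apply]
    conv_lhs => rw [h2, hχ]
    change (χ g * ω i y (ρ i g⁻¹ v)) • ρ i g x = χ g • ρ i g (ω i y (ρ i g⁻¹ v) • x)
    rw [map_smul, mul_smul]
  unfold gT
  rw [h1, map_smul, hT, AdE_apply, LinearMap.smul_apply]
  change ω j (χ g • ρ j g (T (rk (ω i) x y) (ρ j g⁻¹ (ρ j g z)))) (ρ j g w) = _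
  have h3 : ρ j g⁻¹ (ρ j g z) = z := by
    rw [← Module.End.mul_apply, ← map_mul, inv_mul_cancel, map_one, Module.End.one_apply]
  rw [h3, map_smul, LinearMap.smul_apply, hχ, smul_eq_mul]
  ring

theorem gT_lie {i j : ι} {T : End k (V i) →ₗ[k] End k (V j)} {A : ∀ i, End k (V i)} {ν : k}
    (hν : ∀ i x y, ω i (A i x) y + ω i x (A i y) = ν * ω i x y) (x y : V i) (z w : V j) :
    gT ω i j T (A i x) y z w + gT ω i j T x (A i y) z w + gT ω i j T x y (A j z) w +
      gT ω i j T x y z (A j w) =
      ω j (T (adE (A i) (rk (ω i) x y)) z) w - ω j (adE (A j) (T (rk (ω i) x y)) z) w +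
        2 * ν * gT ω i j T x y z w := by
  have h1 : rk (ω i) (A i x) y + rk (ω i) x (A i y) =
      adE (A i) (rk (ω i) x y) + ν • rk (ω i) x y := by
    refine LinearMap.ext fun v => ?_
    rw [LinearMap.add_apply, LinearMap.add_apply, LinearMap.smul_apply, adE_apply,
      LinearMap.sub_apply]
    change ω i y v • A i x + ω i (A i y) v • x =
      A i (ω i y v • x) - ω i y (A i v) • x + ν • (ω i y v • x)
    have h2 : ω i (A i y) v = ν * ω i y v - ω i y (A i v) := by
      rw [← hν]
      ring
    rw [h2, map_smul, sub_smul, mul_smul]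
    abel
  have h3 : gT ω i j T (A i x) y z w + gT ω i j T x (A i y) z w =
      ω j (T (adE (A i) (rk (ω i) x y)) z) w + ν * gT ω i j T x y z w := by
    have h4 := congrArg (fun B => ω j (T B z) w) h1
    simp only [map_add, map_smul, LinearMap.add_apply, LinearMap.smul_apply, smul_eq_mul] at h4
    exact h4
  have h5 : ω j (adE (A j) (T (rk (ω i) x y)) z) w =
      ω j (A j (T (rk (ω i) x y) z)) w - ω j (T (rk (ω i) x y) (A j z)) w := by
    rw [adE_apply, LinearMap.sub_apply, map_sub, LinearMap.sub_apply]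
    rfl
  have h6 := hν j (T (rk (ω i) x y) z) w
  unfold gT at h3 ⊢
  rw [h5]
  linear_combination h3 + h6

include hsh hω

/-- If all Tate classes in codimension two on the products `A_i ^ 2 × A_j ^ 2` are Hodge classes then
all Tate maps between the endomorphism algebras commute with the Lie algebra. -/
theorem commutes_of_codim [∀ i, FiniteDimensional k (V i)] {Γ : Type} [Group Γ]
    {ρ : ∀ i, Representation k Γ (V i)} {χ : Γ →* k}
    (hχ : ∀ i g x y, ω i (ρ i g x) (ρ i g y) = χ g * ω i x y) {i j : ι}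
    {A : ∀ i, End k (V i)} {ν : k} (hν : ∀ i x y, ω i (A i x) y + ω i x (A i y) = ν * ω i x y)
    (h : ∀ f : (∀ a : Fin 4, V ((![i, i, j, j] : Fin 4 → ι) a)) [⋀^Fin (2 * 2)]→ₗ[k] k,
      (∃ Δ : Subgroup Γ, Δ.FiniteIndex ∧ ∀ g ∈ Δ, FixedBy ρ χ f g) →
        ∀ v, der f A v = (2 : ℕ) * ν * f v)
    {T : End k (V i) →ₗ[k] End k (V j)} (hT : IsTateMap (ρ i) (ρ j) T) :
    CommutesAd T (A i) (A j) := by
  obtain ⟨Δ, hΔ, hT⟩ := hT
  have hfix : ∀ g ∈ Δ, FixedBy (s := (![i, i, j, j] : Fin 4 → ι)) (m := 2) ρ χ
      (altOf (formT ω i j T)) g := by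
    intro g hg
    refine altOf_act (formT ω i j T) (fun i => ρ i g) (χ g ^ 2) fun x => ?_
    rw [formT_apply, formT_apply]
    exact gT_grp hχ (hT g hg) _ _ _ _
  have hd := h (altOf (formT ω i j T)) ⟨Δ, hΔ, hfix⟩
  intro B
  refine rk_ext (hsh i) (S := T ∘ₗ (adE (A i))) (T := (adE (A j)) ∘ₗ T) (fun x y => ?_) B
  refine LinearMap.ext fun z => ?_
  rw [← sub_eq_zero]
  refine hω j _ fun w => ?_
  obtain ⟨u, h0, h1, h2, h3⟩ := exists_four i j x y z w
  have h4 := hd (fun l => (Pi.single l (u l) : ∀ a : Fin 4, V ((![i, i, j, j] : Fin 4 → ι) a)))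
  rw [der_apply] at h4
  have h5 := (sum_altOf_single (formT ω i j T) A u).symm.trans h4
  rw [sum_formT ω i j T A x y z w u h0 h1 h2 h3] at h5
  have h6 := altOf_single (formT ω i j T) u
  have h7 : formT ω i j T u = gT ω i j T x y z w := by
    rw [formT_apply, h0, h1, h2, h3]
  rw [gT_lie hν] at h5
  have h8 : ((2 : ℕ) : k) * ν * altOf (formT ω i j T)
      (fun l => (Pi.single l (u l) : ∀ a : Fin 4, V ((![i, i, j, j] : Fin 4 → ι) a))) =
      2 * ν * gT ω i j T x y z w := by
    rw [h6, h7]
    norm_num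
  have h9 := h5.trans h8
  rw [map_sub, LinearMap.sub_apply]
  change ω j (T (adE (A i) (rk (ω i) x y)) z) w - ω j (adE (A j) (T (rk (ω i) x y)) z) w = 0
  linear_combination h9

end adj

end Pool.Agent.U980.AD
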