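import Mathlib
import Pool.Agent.R913.Adj.Weight

/-!
# All Tate tensors from the adjoint maps and the centre
-/

set_option autoImplicit false
set_option linter.unusedSectionVars false

namespace Pool.Agent.U980.AD

open Module TensorProduct Polynomial Pool.Agent.TH118.SG Pool.Agent.Y114.RM Pool.Agent.Y114.MU
  Pool.Agent.Y114.TF Pool.Agent.H204R3.GP Pool.Agent Pool.Agent.R913.Adj

section kills

variable {k : Type} [Field k] {V : Type} [AddCommGroup V] [Module k V]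

theorem kills_add {X Y : End k V} {m : ℕ} {φ : Tensor k V m} (hX : KillsTensor X φ)
    (hY : KillsTensor Y φ) : KillsTensor (X + Y) φ := by
  intro v
  have h : ∀ l, φ (Function.update v l (lie (X + Y) (v l))) =
      φ (Function.update v l (lie X (v l))) + φ (Function.update v l (lie Y (v l))) := by
    intro l
    rw [← φ.map_update_add]
    congr 2
    unfold lie
    rw [LinearMap.prodMap_apply, LinearMap.prodMap_apply, LinearMap.prodMap_apply, Prod.mk_add_mk]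
    refine Prod.ext rfl ?_
    change (-(X + Y).dualMap) (v l).2 = (-X.dualMap) (v l).2 + (-Y.dualMap) (v l).2
    refine LinearMap.ext fun x => ?_
    change -((v l).2 ((X + Y) x)) = -((v l).2 (X x)) + -((v l).2 (Y x))
    rw [LinearMap.add_apply, map_add, neg_add]
  calc ∑ l, φ (Function.update v l (lie (X + Y) (v l)))
      = ∑ l, (φ (Function.update v l (lie X (v l))) + φ (Function.update v l (lie Y (v l)))) :=
        Finset.sum_congr rfl fun l _ => h l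
    _ = 0 := by rw [Finset.sum_add_distrib, hX v, hY v, add_zero]

theorem kills_smul {X : End k V} {m : ℕ} {φ : Tensor k V m} (c : k) (hX : KillsTensor X φ) :
    KillsTensor (c • X) φ := by
  intro v
  have h : ∀ l, φ (Function.update v l (lie (c • X) (v l))) =
      c • φ (Function.update v l (lie X (v l))) := by
    intro l
    rw [← φ.map_update_smul]
    congr 2
    unfold lie
    rw [LinearMap.prodMap_apply, LinearMap.prodMap_apply, Prod.smul_mk]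
    refine Prod.ext rfl ?_
    change (-(c • X).dualMap) (v l).2 = c • (-X.dualMap) (v l).2
    refine LinearMap.ext fun x => ?_
    change -((v l).2 ((c • X) x)) = c • -((v l).2 (X x))
    rw [LinearMap.smul_apply, map_smul, smul_neg]
  calc ∑ l, φ (Function.update v l (lie (c • X) (v l)))
      = ∑ l, c • φ (Function.update v l (lie X (v l))) :=
        Finset.sum_congr rfl fun l _ => h l
    _ = 0 := by rw [← Finset.smul_sum, hX v, smul_zero]

end kills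

section main

variable {ι : Type} [Fintype ι] [DecidableEq ι] {n : ι → ℕ} {ℓ : ℕ} [hℓ : Fact ℓ.Prime]
  {Γ : Type} [Group Γ] [TopologicalSpace Γ] [IsTopologicalGroup Γ] [CompactSpace Γ]

/-- Elements of the motivic Lie algebra are sums of elements killing all Tate tensors and central
elements. -/
theorem split_centre (ρ : ∀ i, Representation ℚ_[ℓ] Γ (Fin (n i) → ℚ_[ℓ]))
    (hρ : ∀ i, Continuous fun g => LinearMap.toMatrix' (ρ i g))
    {𝔤 : Submodule ℚ_[ℓ] (End ℚ_[ℓ] (∀ i, Fin (n i) → ℚ_[ℓ]))} (h𝔤 : IsMotivic ρ 𝔤)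
    (hss : FiniteIndexSemisimple (sumRep ρ)) (had : AdjointMaps ρ 𝔤) :
    ∀ X ∈ 𝔤, ∃ Y ∈ 𝔤, ∃ Z ∈ 𝔤, X = Y + Z ∧
      (∀ (m : ℕ) (φ : Tensor ℚ_[ℓ] (∀ i, Fin (n i) → ℚ_[ℓ]) m),
        TateTensor (sumRep ρ) φ → KillsTensor Y φ) ∧ ∀ U ∈ 𝔤, Z * U = U * Z := by
  obtain ⟨L, hL, hLie, hAd, -⟩ := Y41.RM.lieL' ℚ_[ℓ] (∀ i, Fin (n i) → ℚ_[ℓ]) Γ (sumRep ρ)
  have hnd : NonDeg L := nonDeg_of_semisimple hss hL hLie hAd
  have hLG : L ≤ 𝔤 := fun X hX => h𝔤.algebraic X fun m φ h =>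
    ((hL X).1 hX).2 m φ (h𝔤.tate m φ h)
  have hd : ∀ X ∈ 𝔤, Diag X := h𝔤.parts
  obtain ⟨P, hP⟩ := exists_proj hnd
  have hPc : ∀ γ A, P (sumRep ρ γ * (A * sumRep ρ γ⁻¹)) = sumRep ρ γ * (P A * sumRep ρ γ⁻¹) := by
    intro γ A
    refine hP.conj hnd (fun X hX => hAd γ X hX) (fun X hX => ?_) A
    have h1 := hAd γ⁻¹ X hX
    rw [AdE_apply, inv_inv] at h1
    exact h1
  have hid : ∀ X ∈ 𝔤, ∀ Y ∈ L, X * Y - Y * X ∈ L := by
    refine hP.ideal hLG hd fun i j X hX A => ?_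
    exact had i j (bl (K := ℚ_[ℓ]) (V := fun i => Fin (n i) → ℚ_[ℓ]) j ∘ₗ P ∘ₗ
      em (K := ℚ_[ℓ]) (V := fun i => Fin (n i) → ℚ_[ℓ]) i) ⟨⊤, inferInstance, fun γ _ A => by
      change bl j (P (em i (ρ i γ * (A * ρ i γ⁻¹)))) = ρ j γ * (bl j (P (em i A)) * ρ j γ⁻¹)
      rw [em_conj, hPc, bl_conj]⟩ X hX A
  -- elements commuting with `L` are central
  obtain ⟨Δ, hΔ, hcΔ⟩ := Y220.RM.tfr ℓ ι n Γ ρ hρ (comm L) (comm_conj hAd) (comm_order hL)
  have hcen : ∀ Z ∈ 𝔤, (∀ W ∈ L, Z * W = W * Z) → ∀ X ∈ 𝔤, Z * X = X * Z := by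
    intro Z hZ hZL X hX
    have h1 : ∀ γ ∈ Δ, sumRep ρ γ * Z = Z * sumRep ρ γ := fun γ hγ =>
      hcΔ γ hγ Z fun W hW => (hZL W hW).symm
    refine ((hd Z hZ).mul (hd X hX)).ext ((hd X hX).mul (hd Z hZ)) fun i => ?_
    have h2 : ∀ γ ∈ Δ, ρ i γ * bl i Z = bl i Z * ρ i γ := by
      intro γ hγ
      have h3 := congrArg (bl i) (h1 γ hγ)
      rw [bl_mul (sum_diag ρ γ), bl_mul (hd Z hZ), bl_sum] at h3
      exact h3
    have h4 := had i i (LinearMap.mulLeft ℚ_[ℓ] (bl i Z)) ⟨Δ, hΔ, fun γ hγ A => by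
      rw [LinearMap.mulLeft_apply, LinearMap.mulLeft_apply, AdE_apply, AdE_apply, ← mul_assoc,
        ← h2 γ hγ]
      simp only [mul_assoc]⟩ X hX 1
    rw [LinearMap.mulLeft_apply, LinearMap.mulLeft_apply, adE_apply, adE_apply, mul_one, mul_one,
      one_mul, sub_self, mul_zero] at h4
    rw [bl_mul (hd Z hZ), bl_mul (hd X hX)]
    exact (sub_eq_zero.1 h4.symm).symm
  intro X hX
  obtain ⟨X', hX', Z, hZ, rfl, hZL⟩ := hP.split hnd hLG hid hX
  exact ⟨X', hLG hX', Z, hZ, rfl, fun m φ hφ => ((hL X').1 hX').2 m φ hφ, hcen Z hZ hZL⟩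

/-- All Tate tensors are killed by `𝔤` if those are killed by the centre. -/
theorem kills_of_centre (ρ : ∀ i, Representation ℚ_[ℓ] Γ (Fin (n i) → ℚ_[ℓ]))
    (hρ : ∀ i, Continuous fun g => LinearMap.toMatrix' (ρ i g))
    {𝔤 : Submodule ℚ_[ℓ] (End ℚ_[ℓ] (∀ i, Fin (n i) → ℚ_[ℓ]))} (h𝔤 : IsMotivic ρ 𝔤)
    (hss : FiniteIndexSemisimple (sumRep ρ)) (had : AdjointMaps ρ 𝔤)
    (hc : ∀ Z ∈ 𝔤, (∀ U ∈ 𝔤, Z * U = U * Z) →
      ∀ (m : ℕ) (φ : Tensor ℚ_[ℓ] (∀ i, Fin (n i) → ℚ_[ℓ]) m),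
        TateTensor (sumRep ρ) φ → KillsTensor Z φ) :
    ∀ X ∈ 𝔤, ∀ (m : ℕ) (φ : Tensor ℚ_[ℓ] (∀ i, Fin (n i) → ℚ_[ℓ]) m),
      TateTensor (sumRep ρ) φ → KillsTensor X φ := by
  intro X hX m φ hφ
  obtain ⟨Y, -, Z, hZ, rfl, h1, h2⟩ := split_centre ρ hρ h𝔤 hss had X hX
  exact kills_add (h1 m φ hφ) (hc Z hZ h2 m φ hφ)

end main

end Pool.Agent.U980.AD
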