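import Mathlib
import Pool.Agent.U980.AD.Codim
import Pool.Agent.U980.AD.Split

/-!
# The Tate tensors of motives, and classes in codimension two on abelian varieties
-/

set_option autoImplicit false
set_option linter.unusedSectionVars false

namespace Pool.Agent.U980.AD

open Module TensorProduct Polynomial Pool.Agent.TH118.SG Pool.Agent.Y114.RM Pool.Agent.Y114.MU
  Pool.Agent.Y114.TF Pool.Agent.H204R3.GP Pool.Agent Pool.Agent.R913.Adj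

section main

variable {ι : Type} [Fintype ι] [DecidableEq ι] {n : ι → ℕ} {ℓ : ℕ} [hℓ : Fact ℓ.Prime]
  {Γ : Type} [Group Γ] [TopologicalSpace Γ] [IsTopologicalGroup Γ] [CompactSpace Γ]

/-- The centre of `𝔤` kills all Tate tensors. -/
def CentreKills (ρ : ∀ i, Representation ℚ_[ℓ] Γ (Fin (n i) → ℚ_[ℓ]))
    (𝔤 : Submodule ℚ_[ℓ] (End ℚ_[ℓ] (∀ i, Fin (n i) → ℚ_[ℓ]))) : Prop :=
  ∀ Z ∈ 𝔤, (∀ U ∈ 𝔤, Z * U = U * Z) →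
    ∀ (m : ℕ) (φ : Tensor ℚ_[ℓ] (∀ i, Fin (n i) → ℚ_[ℓ]) m),
      TateTensor (sumRep ρ) φ → KillsTensor Z φ

/-- All Tate tensors are killed by `𝔤`. -/
def AllKilled (ρ : ∀ i, Representation ℚ_[ℓ] Γ (Fin (n i) → ℚ_[ℓ]))
    (𝔤 : Submodule ℚ_[ℓ] (End ℚ_[ℓ] (∀ i, Fin (n i) → ℚ_[ℓ]))) : Prop :=
  ∀ (m : ℕ) (φ : Tensor ℚ_[ℓ] (∀ i, Fin (n i) → ℚ_[ℓ]) m),
    TateTensor (sumRep ρ) φ → ∀ X ∈ 𝔤, KillsTensor X φ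

variable (ρ : ∀ i, Representation ℚ_[ℓ] Γ (Fin (n i) → ℚ_[ℓ]))
  (hρ : ∀ i, Continuous fun g => LinearMap.toMatrix' (ρ i g))
  {𝔤 : Submodule ℚ_[ℓ] (End ℚ_[ℓ] (∀ i, Fin (n i) → ℚ_[ℓ]))} (h𝔤 : IsMotivic ρ 𝔤)

include hρ h𝔤

theorem allKilled_of (hss : FiniteIndexSemisimple (sumRep ρ)) (had : AdjointMaps ρ 𝔤)
    (hc : CentreKills ρ 𝔤) : AllKilled ρ 𝔤 := fun m φ hφ X hX =>
  kills_of_centre ρ hρ h𝔤 hss had hc X hX m φ hφ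

theorem adjoint_of_all (h : AllKilled ρ 𝔤) : AdjointMaps ρ 𝔤 :=
  adjointMaps_of_kills ρ h𝔤.parts fun m φ hφ X hX => h m φ hφ X hX

theorem centre_of_all (h : AllKilled ρ 𝔤) : CentreKills ρ 𝔤 :=
  fun Z hZ _ m φ hφ => h m φ hφ Z hZ

theorem centre_of_weight (hss : FiniteIndexSemisimple (sumRep ρ)) {w : ι → ℤ} {γ : Γ}
    (hγ : ActsPurely ρ w γ)
    (hw : ∀ Z ∈ 𝔤, (∀ U ∈ 𝔤, Z * U = U * Z) →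
      ∃ c : ℚ_[ℓ], Z = c • weightOp (k := ℚ_[ℓ]) (fun i => Fin (n i) → ℚ_[ℓ]) w) :
    CentreKills ρ 𝔤 := by
  intro Z hZ hZc m φ hφ
  obtain ⟨c, rfl⟩ := hw Z hZ hZc
  exact kills_smul c (weight_kills ρ hss hγ m φ hφ)

theorem centre_of_scalars (hss : FiniteIndexSemisimple (sumRep ρ)) {w : ℤ} (hw0 : w ≠ 0) {γ : Γ}
    (hγ : ActsPurely ρ (fun _ => w) γ)
    (hw : ∀ Z ∈ 𝔤, (∀ U ∈ 𝔤, Z * U = U * Z) → ∃ c : ℚ_[ℓ], Z = c • 1) :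
    CentreKills ρ 𝔤 := by
  refine centre_of_weight ρ hρ h𝔤 hss hγ fun Z hZ hZc => ?_
  obtain ⟨c, rfl⟩ := hw Z hZ hZc
  have hw1 : (w : ℚ_[ℓ]) ≠ 0 := Int.cast_ne_zero.2 hw0
  refine ⟨c * (w : ℚ_[ℓ])⁻¹, ?_⟩
  have h1 : weightOp (k := ℚ_[ℓ]) (fun i => Fin (n i) → ℚ_[ℓ]) (fun _ => w) =
      (w : ℚ_[ℓ]) • (1 : End ℚ_[ℓ] (∀ i, Fin (n i) → ℚ_[ℓ])) := by
    refine LinearMap.ext fun x => funext fun i => ?_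
    rfl
  rw [h1, smul_smul, mul_assoc, inv_mul_cancel₀ hw1, mul_one]

/-! ### Abelian varieties -/

variable {χ : Γ →* ℚ_[ℓ]}
  {ω : ∀ i, (Fin (n i) → ℚ_[ℓ]) →ₗ[ℚ_[ℓ]] (Fin (n i) → ℚ_[ℓ]) →ₗ[ℚ_[ℓ]] ℚ_[ℓ]}
  (hω : ∀ i x, (∀ y, ω i x y = 0) → x = 0)
  (hχ : ∀ i g x y, ω i (ρ i g x) (ρ i g y) = χ g * ω i x y)
  (hsim : ∀ X ∈ 𝔤, ∃ ν, ∀ i x y, ω i (bl i X x) y + ω i x (bl i X y) = ν * ω i x y)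

omit [TopologicalSpace Γ] [IsTopologicalGroup Γ] [CompactSpace Γ] hρ h𝔤 in
include hω in
theorem exists_sh : ∃ sh : ∀ i, Dual ℚ_[ℓ] (Fin (n i) → ℚ_[ℓ]) →ₗ[ℚ_[ℓ]] (Fin (n i) → ℚ_[ℓ]),
    ∀ i ξ y, ω i (sh i ξ) y = ξ y := by
  have h : ∀ i, Function.Injective (ω i) := fun i x x' hx => by
    have h1 : x - x' = 0 := hω i _ fun y => by
      rw [map_sub, hx, sub_self, LinearMap.zero_apply]
    exact sub_eq_zero.1 h1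
  let e := fun i => LinearEquiv.ofInjectiveOfFinrankEq (ω i) (h i)
    (Subspace.dual_finrank_eq (K := ℚ_[ℓ]) (V := Fin (n i) → ℚ_[ℓ])).symm
  refine ⟨fun i => (e i).symm.toLinearMap, fun i ξ y => ?_⟩
  have h1 : e i ((e i).symm ξ) = ξ := (e i).apply_symm_apply ξ
  exact congrArg (fun η : Dual ℚ_[ℓ] (Fin (n i) → ℚ_[ℓ]) => η y) h1

/-- A form is a Hodge class. -/
def HodgeCl (𝔤 : Submodule ℚ_[ℓ] (End ℚ_[ℓ] (∀ i, Fin (n i) → ℚ_[ℓ])))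
    (ω : ∀ i, (Fin (n i) → ℚ_[ℓ]) →ₗ[ℚ_[ℓ]] (Fin (n i) → ℚ_[ℓ]) →ₗ[ℚ_[ℓ]] ℚ_[ℓ])
    {q m : ℕ} {s : Fin q → ι}
    (f : (∀ a, Fin (n (s a)) → ℚ_[ℓ]) [⋀^Fin (2 * m)]→ₗ[ℚ_[ℓ]] ℚ_[ℓ]) : Prop :=
  ∀ X ∈ 𝔤, ∀ ν : ℚ_[ℓ], (∀ i x y, ω i (bl i X x) y + ω i x (bl i X y) = ν * ω i x y) →
    ∀ v, der (V := fun i => Fin (n i) → ℚ_[ℓ]) f (fun i => bl i X) v = m * ν * f v

/-- A form is a Tate class. -/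
def TateCl (ρ : ∀ i, Representation ℚ_[ℓ] Γ (Fin (n i) → ℚ_[ℓ])) (χ : Γ →* ℚ_[ℓ])
    {q m : ℕ} {s : Fin q → ι}
    (f : (∀ a, Fin (n (s a)) → ℚ_[ℓ]) [⋀^Fin (2 * m)]→ₗ[ℚ_[ℓ]] ℚ_[ℓ]) : Prop :=
  ∃ Δ : Subgroup Γ, Δ.FiniteIndex ∧ ∀ g ∈ Δ,
    FixedBy (V := fun i => Fin (n i) → ℚ_[ℓ]) ρ χ f g

include hω hχ

theorem hodge_of_all (h : AllKilled ρ 𝔤) {q m : ℕ} {s : Fin q → ι}
    (f : (∀ a, Fin (n (s a)) → ℚ_[ℓ]) [⋀^Fin (2 * m)]→ₗ[ℚ_[ℓ]] ℚ_[ℓ]) (hf : TateCl ρ χ f) :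
    HodgeCl 𝔤 ω f := by
  obtain ⟨sh, hsh⟩ := exists_sh (ι := ι) (n := n) (ω := ω) hω
  intro X hX ν hν
  refine (kills_toTensor (V := fun i => Fin (n i) → ℚ_[ℓ]) hsh hω f (h𝔤.parts X hX) hν).1
    fun r => h _ _ ?_ X hX
  exact (tate_toTensor (V := fun i => Fin (n i) → ℚ_[ℓ]) hsh hω ρ χ hχ f).2 hf r

include hsim

theorem tate_of_hodge {q m : ℕ} {s : Fin q → ι}
    (f : (∀ a, Fin (n (s a)) → ℚ_[ℓ]) [⋀^Fin (2 * m)]→ₗ[ℚ_[ℓ]] ℚ_[ℓ]) (hf : HodgeCl 𝔤 ω f) :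
    TateCl ρ χ f := by
  obtain ⟨sh, hsh⟩ := exists_sh (ι := ι) (n := n) (ω := ω) hω
  refine (tate_toTensor (V := fun i => Fin (n i) → ℚ_[ℓ]) hsh hω ρ χ hχ f).1 fun r => ?_
  refine h𝔤.tate _ _ fun X hX => ?_
  obtain ⟨ν, hν⟩ := hsim X hX
  exact (kills_toTensor (V := fun i => Fin (n i) → ℚ_[ℓ]) hsh hω f (h𝔤.parts X hX) hν).2
    (hf X hX ν hν) r

theorem adjoint_of_codim
    (h : ∀ (i j : ι) (f : (∀ a : Fin 4, Fin (n ((![i, i, j, j] : Fin 4 → ι) a)) → ℚ_[ℓ])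
      [⋀^Fin (2 * 2)]→ₗ[ℚ_[ℓ]] ℚ_[ℓ]), TateCl ρ χ f → HodgeCl 𝔤 ω f) : AdjointMaps ρ 𝔤 := by
  obtain ⟨sh, hsh⟩ := exists_sh (ι := ι) (n := n) (ω := ω) hω
  intro i j T hT X hX
  obtain ⟨ν, hν⟩ := hsim X hX
  exact commutes_of_codim (V := fun i => Fin (n i) → ℚ_[ℓ]) hsh hω hχ (A := fun i => bl i X) hν
    (fun f hf v => h i j f hf X hX ν hν v) hT

end main

end Pool.Agent.U980.AD
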